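import Pool.Agent.H24.CL.Targets

/-!
# The orbit of `H 3 q 3` and its columns in digits (helper41, row OC of clv_modules)
-/

set_option autoImplicit false

open Finset MeasureTheory

namespace Pool.Agent.H41.CL

open Pool.Agent.H24.CL

theorem cel_eq (q r s t : ℕ) (hq : 0 < q) :
    cel q r s t = tor q 2 (fun i : Fin 3 => if i.val = 0 then ((r : ℤ) + q * t)
      else if i.val = 1 then (q : ℤ) * s else 0) := by
  have hq' : (q : ℝ) ≠ 0 := by positivity
  funext i
  simp only [cel, tor]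
  by_cases h0 : i.val = 0
  · simp only [h0, if_true]
    push_cast
    rfl
  · by_cases h1 : i.val = 1
    · simp only [h1, if_true]
      rw [if_neg (by norm_num), if_neg (by norm_num)]
      congr 1
      push_cast
      field_simp
    · rw [if_neg h0, if_neg h1, if_neg h0, if_neg h1]
      simp

theorem Zv_val {q : ℕ} [NeZero q] (w : V3 q) (b : ZMod q) :
    (Zv w b).val = Dv (fun i => (w i).val) b.val % q := by
  have : Zv w b = ((Dv (fun i => (w i).val) b.val : ℕ) : ZMod q) := by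
    simp [Zv, Dv]
  rw [this, ZMod.val_natCast]

theorem Zw_val {q : ℕ} [NeZero q] (w : V3 q) (b : ZMod q) :
    (Zw w b).val = Dw (fun i => (w i).val) b.val % q := by
  have : Zw w b = ((Dw (fun i => (w i).val) b.val : ℕ) : ZMod q) := by
    simp [Zw, Dw]
  rw [this, ZMod.val_natCast]

theorem Zk_val {q : ℕ} [NeZero q] (w w' : V3 q) (b : ZMod q) :
    (Zv w b + kaps q b w').val = (Dv (fun i => (w i).val) b.val +
      Dv (fun i => (w' i).val) b.val / q) % q := by
  have : Zv w b + kaps q b w' = ((Dv (fun i => (w i).val) b.val +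
      Dv (fun i => (w' i).val) b.val / q : ℕ) : ZMod q) := by
    simp [Zv, Dv, kaps]
  rw [this, ZMod.val_natCast]

theorem dig (q B : ℕ) (W3 W2 W1 : Fin 3 → ℕ) (i : Fin 3) :
    (q : ℤ) ^ 2 ∣ (q : ℤ) ^ i.val * ∑ j : Fin 3, (Nat.choose (j.val + 1) (i.val + 1) : ℤ) *
        (B : ℤ) ^ (j.val - i.val) * ((W3 j + q * W2 j + q ^ 2 * W1 j : ℕ) : ℤ) -
      (if i.val = 0 then (((Dv W3 B % q : ℕ) : ℤ) + q * ((Dv W2 B + Dv W3 B / q) % q : ℕ))
      else if i.val = 1 then (q : ℤ) * (Dw W3 B % q : ℕ) else 0) := by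
  have e1 : (Dv W3 B : ℤ) = ((Dv W3 B % q : ℕ) : ℤ) + q * ((Dv W3 B / q : ℕ) : ℤ) := by
    exact_mod_cast (Nat.mod_add_div (Dv W3 B) q).symm
  have e2 : ((Dv W2 B + Dv W3 B / q : ℕ) : ℤ) = (((Dv W2 B + Dv W3 B / q) % q : ℕ) : ℤ) +
      q * (((Dv W2 B + Dv W3 B / q) / q : ℕ) : ℤ) := by
    exact_mod_cast (Nat.mod_add_div (Dv W2 B + Dv W3 B / q) q).symm
  have e3 : (Dv W3 B : ℤ) = W3 0 + 2 * B * W3 1 + 3 * B ^ 2 * W3 2 := by
    simp [Dv]
  have e4 : (Dv W2 B : ℤ) = W2 0 + 2 * B * W2 1 + 3 * B ^ 2 * W2 2 := by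
    simp [Dv]
  have e5 : (Dw W3 B : ℤ) = ((Dw W3 B % q : ℕ) : ℤ) + q * ((Dw W3 B / q : ℕ) : ℤ) := by
    exact_mod_cast (Nat.mod_add_div (Dw W3 B) q).symm
  have e6 : (Dw W3 B : ℤ) = W3 1 + 3 * B * W3 2 := by
    simp [Dw]
  rw [Nat.cast_add] at e2
  generalize Dv W3 B % q = x1 at *
  generalize Dv W3 B / q = x2 at *
  generalize (Dv W2 B + x2) % q = x3 at *
  generalize (Dv W2 B + x2) / q = x4 at *
  generalize Dw W3 B % q = x5 at *
  generalize Dw W3 B / q = x6 at *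
  rw [e3] at e1
  rw [e4] at e2
  rw [e6] at e5
  fin_cases i
  · refine ⟨(x4 : ℤ) + (W1 0 + 2 * B * W1 1 + 3 * B ^ 2 * W1 2), ?_⟩
    simp [Fin.sum_univ_three, Nat.choose]
    linear_combination e1 + (q : ℤ) * e2
  · refine ⟨(x6 : ℤ) + (W2 1 + 3 * B * W2 2) + q * (W1 1 + 3 * B * W1 2), ?_⟩
    simp [Fin.sum_univ_three, Nat.choose]
    linear_combination (q : ℤ) * e5
  · refine ⟨(W3 2 : ℤ) + q * W2 2 + q ^ 2 * W1 2, ?_⟩
    simp [Fin.sum_univ_three, Nat.choose]

theorem part1 (hTO : T_TO) (q : ℕ) [Fact q.Prime] (b : ZMod q) (w : V3 q × V3 q × V3 q) :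
    phi q b.val (orb q (fun i => (w.1 i).val) (fun i => (w.2.1 i).val) (fun i => (w.2.2 i).val)) =
      cel q (Zv w.1 b).val (Zw w.1 b).val (Zv w.2.1 b + kaps q b w.1).val := by
  have hq : 0 < q := (Fact.out : q.Prime).pos
  have : NeZero q := ⟨hq.ne'⟩
  obtain ⟨-, -, -, h4, h5, -⟩ := hTO 3 q hq
  rw [orb, h5 2, cel_eq q _ _ _ hq, h4 2]
  rw [Zv_val, Zw_val, Zk_val]
  intro i
  exact dig q b.val _ _ _ i

theorem part2 (q : ℕ) [Fact q.Prime] (W : Set (X 3)) (a : X 3) (Y : Finset (X 3))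
    (hY : ∀ y ∈ Y, y ∈ HF 3 q 3 ∧ a + y ∈ W) : Y.card ≤ (A0s q W a).card := by
  classical
  have hq : 0 < q := (Fact.out : q.Prime).pos
  have : NeZero q := ⟨hq.ne'⟩
  have hsub : Y ⊆ (A0s q W a).image (fun w => orb q (fun i => (w.1 i).val)
      (fun i => (w.2.1 i).val) (fun i => (w.2.2 i).val)) := by
    intro y hy
    obtain ⟨h1, h2⟩ := hY y hy
    simp only [HF, mem_image, Fintype.mem_piFinset, mem_range] at h1
    obtain ⟨n, hn, rfl⟩ := h1
    have key : orb q (fun i => ((n i : ℕ) : ZMod q).val) (fun i => ((n i / q : ℕ) : ZMod q).val)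
        (fun i => ((n i / q ^ 2 : ℕ) : ZMod q).val) = tor q 3 fun i => (n i : ℤ) := by
      unfold orb
      congr 1
      funext i
      have h3 : n i / q ^ 2 < q := by
        rw [Nat.div_lt_iff_lt_mul (by positivity)]
        calc n i < q ^ 3 := hn i
          _ = q * q ^ 2 := by ring
      simp only [ZMod.val_natCast]
      rw [Nat.mod_eq_of_lt h3]
      have h4 : n i % q + q * (n i / q) = n i := Nat.mod_add_div _ _
      have h5 : n i / q % q + q * (n i / q / q) = n i / q := Nat.mod_add_div _ _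
      rw [Nat.div_div_eq_div_mul, ← pow_two] at h5
      congr 1
      nlinarith [h4, h5]
    rw [mem_image]
    refine ⟨(fun i => ((n i : ℕ) : ZMod q), fun i => ((n i / q : ℕ) : ZMod q),
      fun i => ((n i / q ^ 2 : ℕ) : ZMod q)), ?_, key⟩
    rw [A0s, mem_filter]
    refine ⟨mem_univ _, ?_⟩
    show a + orb q _ _ _ ∈ W
    rw [key]
    exact h2
  exact (card_le_card hsub).trans card_image_le

theorem cel_inj (hTO : T_TO) (q : ℕ) [Fact q.Prime] (v v' : ZMod q × ZMod q × ZMod q)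
    (h : cel q v.1.val v.2.1.val v.2.2.val = cel q v'.1.val v'.2.1.val v'.2.2.val) : v = v' := by
  have hq : 0 < q := (Fact.out : q.Prime).pos
  have : NeZero q := ⟨hq.ne'⟩
  obtain ⟨-, -, -, h4, -, -⟩ := hTO 3 q hq
  rw [cel_eq q _ _ _ hq, cel_eq q _ _ _ hq, h4 2] at h
  have h0 := h 0
  have h1 := h 1
  simp only [Fin.isValue, Fin.val_zero, if_true, Fin.val_one] at h0 h1
  rw [if_neg (by norm_num), if_neg (by norm_num)] at h1
  obtain ⟨r, s, t⟩ := v
  obtain ⟨r', s', t'⟩ := v'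
  simp only at h0 h1
  have hr := ZMod.val_lt r
  have hs := ZMod.val_lt s
  have ht := ZMod.val_lt t
  have hr' := ZMod.val_lt r'
  have hs' := ZMod.val_lt s'
  have ht' := ZMod.val_lt t'
  have k0 : r.val + q * t.val = r'.val + q * t'.val := by
    have hm : (r.val + q * t.val : ℕ) ≡ (r'.val + q * t'.val : ℕ) [MOD q ^ 2] := by
      rw [Nat.modEq_iff_dvd]
      push_cast
      have := (dvd_neg.mpr h0)
      simpa [neg_sub] using this
    have b1 : r.val + q * t.val < q ^ 2 := by nlinarith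
    have b2 : r'.val + q * t'.val < q ^ 2 := by nlinarith
    exact Nat.ModEq.eq_of_lt_of_lt hm b1 b2
  have k1 : q * s.val = q * s'.val := by
    have hm : (q * s.val : ℕ) ≡ (q * s'.val : ℕ) [MOD q ^ 2] := by
      rw [Nat.modEq_iff_dvd]
      push_cast
      have := (dvd_neg.mpr h1)
      simpa [neg_sub] using this
    have b1 : q * s.val < q ^ 2 := by nlinarith
    have b2 : q * s'.val < q ^ 2 := by nlinarith
    exact Nat.ModEq.eq_of_lt_of_lt hm b1 b2
  have e1 : s.val = s'.val := Nat.eq_of_mul_eq_mul_left hq k1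
  have e2 : r.val = r'.val := by
    have := congrArg (· % q) k0
    simpa [Nat.mod_eq_of_lt hr, Nat.mod_eq_of_lt hr'] using this
  have e3 : t.val = t'.val := by
    rw [e2] at k0
    exact Nat.eq_of_mul_eq_mul_left hq (by omega)
  rw [ZMod.val_injective q e1, ZMod.val_injective q e2, ZMod.val_injective q e3]

theorem part3 (hTO : T_TO) (q : ℕ) [Fact q.Prime] (W : Set (X 3)) (a : X 3) (b : ZMod q) :
    ∃ Y : Finset (X 3), Y ⊆ (HF 3 q 3).image (fun h => phi q b.val (a + h)) ∧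
      (∀ y ∈ Y, y ∈ W) ∧ (A1s q W a b).card ≤ Y.card := by
  classical
  have hq : 0 < q := (Fact.out : q.Prime).pos
  have : NeZero q := ⟨hq.ne'⟩
  obtain ⟨hH, hHF, -, -, -, -⟩ := hTO 3 q hq
  refine ⟨(A1s q W a b).image (fun v => phi q b.val a + cel q v.1.val v.2.1.val v.2.2.val),
    ?_, ?_, ?_⟩
  · intro y hy
    rw [mem_image] at hy
    obtain ⟨v, -, rfl⟩ := hy
    obtain ⟨r, s, t⟩ := v
    set w3 : V3 q := ![r - 2 * b * s, s, 0] with hw3
    set w2 : V3 q := ![t - kaps q b w3, 0, 0] with hw2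
    have p1 := part1 hTO q b (w3, w2, 0)
    have z1 : Zv w3 b = r := by simp [Zv, hw3]
    have z2 : Zw w3 b = s := by simp [Zw, hw3]
    have z3 : Zv w2 b + kaps q b w3 = t := by
      have : Zv w2 b = t - kaps q b w3 := by
        simp [Zv, hw2]
      rw [this]
      ring
    simp only [z1, z2, z3] at p1
    rw [mem_image]
    refine ⟨orb q (fun i => (w3 i).val) (fun i => (w2 i).val)
      (fun i => ((0 : V3 q) i).val), ?_, ?_⟩
    · rw [hHF, hH]
      exact ⟨_, rfl⟩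
    · rw [map_add, p1]
  · intro y hy
    rw [mem_image] at hy
    obtain ⟨v, hv, rfl⟩ := hy
    rw [A1s, mem_filter] at hv
    exact hv.2
  · rw [card_image_of_injOn]
    intro v _ v' _ h
    exact cel_inj hTO q v v' (add_left_cancel h)

/-- Row OC. -/
theorem pf_OC (hTO : T_TO) : T_OC := by
  intro q _ _
  exact ⟨part1 hTO q, part2 q, part3 hTO q⟩

end Pool.Agent.H41.CL
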